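import Pool.Agent.H75.ST.Stmt

/-! Module LDD2 of the board stx_modules: the direction of the replaced structure. -/

set_option autoImplicit false

open Set Pool.Agent.TK

namespace Pool.Agent.ST

private lemma ldd2_exists_disj {E : ℕ → Set ℕ} (hE : Antitone E) (h : ∀ v, ∃ n, v ∉ E n)
    {B : Set ℕ} (hB : B.Finite) : ∃ n, Disjoint B (E n) := by
  choose f hf using h
  refine ⟨hB.toFinset.sup f, ?_⟩
  rw [Set.disjoint_left]
  intro x hx hxE
  exact hf x (hE (Finset.le_sup (hB.mem_toFinset.2 hx)) hxE)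

theorem pf_LDD2 {C : Type} [MeasurableSpace C] {c0 : C} (hDIR : DIR C c0) (hPDB : PDB C c0)
    (hLRF2 : LRF2 C c0) (hRPF : RPF C c0) (hLDR2 : LDR2 C c0) : LDD2 C c0 := by
  intro b X M w E D a R r H y
  have hVM : Valid c0 M := H.hyp.val M H.hM
  obtain ⟨-, -, -, hP4, -, -, -, -, -, hP10, -⟩ := hPDB M hVM w E D H.pd
  obtain ⟨hL1, hL2⟩ := hLRF2 b X M w E D a R r H y
  have hRD := hLDR2 b X M w E D a R r H
  have hRDy : RD c0 M a D R y :=
    { val := hRD.val
      valR := fun i _ => hRD.valR i (mem_univ i)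
      cpM := fun i _ => hRD.cpM i (mem_univ i)
      cpR := fun i _ => hRD.cpR i (mem_univ i)
      pi := fun i _ => hRD.pi i (mem_univ i)
      disj := fun i _ j _ => hRD.disj i (mem_univ i) j (mem_univ j)
      disjA := fun i _ j _ => hRD.disjA i (mem_univ i) j (mem_univ j) }
  have hVN : Valid c0 (repl c0 M a D R y) := (hRPF M a D R y hRDy).1
  have hanti : Antitone (fun n => w (E n)) := fun i j hij => hP4 i j hij
  refine ⟨?_, ?_⟩
  · obtain ⟨w', hw', hw2⟩ := hDIR (repl c0 M a D R y) hVN (fun n => w (E n))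
      (fun n => hP4 n (n + 1) (Nat.le_succ n)) (fun n => (hL1 n).cd hVN) (by
        rw [Set.eq_empty_iff_forall_notMem]
        intro v hv
        obtain ⟨n, hn⟩ := H.pd.exh v
        exact hn (Set.mem_iInter.1 hv n))
    exact ⟨w', hw', hw2⟩
  · rintro w' ⟨hw', hw2⟩
    have hfin : ∀ n, (E n).Finite := H.pd.fin
    have heq : ∀ n, w' (E n) = w (E n) := by
      intro n
      obtain ⟨x, hx⟩ := (hL1 n).nonempty
      have hsub := hw2 (E n) (hfin n) n (hL1 n).disj.symm
      exact IsCp.eq_of_inter hVN (hw'.1 (E n) (hfin n)) (hL1 n) (hsub hx) hx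
    refine ⟨heq, ?_⟩
    ext v
    rw [hP10 v]
    constructor
    · intro hv n hn
      have hBf : (E n ∪ {v}).Finite := (hfin n).union (Set.finite_singleton v)
      have h1 : v ∈ Nb (repl c0 M a D R y) (w' (E n ∪ {v})) :=
        hv (E n ∪ {v}) hBf (Or.inr rfl)
      have hd : Disjoint (E n ∪ {v}) (w (E n)) := by
        rw [Set.disjoint_union_left]
        exact ⟨(hL1 n).disj.symm, Set.disjoint_singleton_left.2 hn⟩
      have h2 : w' (E n ∪ {v}) = w (E n) := by
        apply Set.Subset.antisymm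
        · rw [← heq n]
          exact hw'.2 _ _ hBf Set.subset_union_left
        · exact hw2 _ hBf n hd
      rw [h2, hL2 n] at h1
      exact h1
    · intro hv B hB hvB
      obtain ⟨n, hn⟩ := ldd2_exists_disj hanti H.pd.exh hB
      refine ⟨fun h => Set.disjoint_left.1 (hw'.1 B hB).disj h hvB, ?_⟩
      have h1 : v ∈ Nb M (w (E n)) := hv n (Set.disjoint_left.1 hn hvB)
      rw [← hL2 n] at h1
      obtain ⟨_, s, hs, hps⟩ := h1
      exact ⟨s, hw2 B hB n hn hs, hps⟩

end Pool.Agent.ST
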